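import Pool.Agent.Helper42.SLR.Defs

/-!
# Project SL, module RB: packet NU (a number field, integers and units)
-/

namespace Pool.Agent.Helper40.SLR

open Pool.Agent.Helper51.SigLeo Pool.Agent.Helper51.SixExp Pool.Agent.Helper17.SL NumberField Module
open Pool.Agent.Helper42.SLR

universe u v w x y z

/-- a common exponent -/
theorem common {p : ℕ} [Fact p.Prime] {k : Type v} [NormedField k] [NormedAlgebra ℚ_[p] k]
    {Ω : Type u} [Field Ω] [CharZero Ω] (ι : Ω →+* k) (Λ : IwasawaLog p k) {α : Type*} [Fintype α]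
    (Y : α → k) (hY : ∀ a, IsLog Λ ι (Y a)) :
    ∃ (n : ℕ) (v : α → Ωˣ), 0 < n ∧ (∀ a, IsUnitAlg (v a)) ∧
      ∀ a, (n : k) * Y a = Λ.toFun (Units.map (ι : Ω →* k) (v a)) := by
  classical
  choose N hN v hv hNv using hY
  have hdvd : ∀ a, ∃ m : ℕ, (∏ b, N b) = m * N a := fun a ↦ by
    obtain ⟨m, hm⟩ := Finset.dvd_prod_of_mem N (Finset.mem_univ a)
    exact ⟨m, by rw [hm, mul_comm]⟩
  choose m hm using hdvd
  refine ⟨∏ b, N b, fun a ↦ v a ^ m a, Finset.prod_pos fun b _ ↦ hN b, fun a ↦ (hv a).pow _,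
    fun a ↦ ?_⟩
  rw [map_pow, log_pow, ← hNv a, ← mul_assoc, hm a, Nat.cast_mul]

theorem nu : S_NU.{u, v, x, y} := by
  classical
  intro p _ k _ _ _ _ _ Ω _ _ _ ι Λ g I J _ _ X Y hY
  obtain ⟨n1, v, hn1, hv, hn1v⟩ := common ι Λ (fun a : Fin g × J ↦ Y a.1 a.2) fun a ↦ hY a.1 a.2
  -- the number field
  let S : Set Ω := (Set.range fun a : Fin g × J ↦ (v a : Ω)) ∪ Set.range fun a : Fin g × I ↦ X a.1 a.2
  have hSfin : S.Finite := (Set.finite_range _).union (Set.finite_range _)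
  let L : IntermediateField ℚ Ω := IntermediateField.adjoin ℚ S
  have : Finite S := hSfin
  have hfin : FiniteDimensional ℚ L :=
    IntermediateField.finiteDimensional_adjoin (K := ℚ) (S := S)
      fun y _ ↦ Algebra.IsIntegral.isIntegral y
  have hNF : NumberField L := { to_charZero := inferInstance, to_finiteDimensional := hfin }
  have hmemv : ∀ a, (v a : Ω) ∈ L := fun a ↦
    IntermediateField.subset_adjoin ℚ S (Or.inl ⟨a, rfl⟩)
  have hmemX : ∀ q i, X q i ∈ L := fun q i ↦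
    IntermediateField.subset_adjoin ℚ S (Or.inr ⟨(q, i), rfl⟩)
  have hmemv' : ∀ a, (((v a)⁻¹ : Ωˣ) : Ω) ∈ L := fun a ↦ by
    rw [Units.val_inv_eq_inv_val]
    exact L.inv_mem (hmemv a)
  have hint : ∀ y : L, IsIntegral ℤ (y : Ω) → IsIntegral ℤ y := fun y hy ↦ by
    have := hy
    rwa [← IntermediateField.algebraMap_apply,
      isIntegral_algebraMap_iff (algebraMap L Ω).injective] at this
  let V : Fin g × J → (𝓞 L)ˣ := fun a ↦ mkUnit (⟨v a, hmemv a⟩ : L) ⟨((v a)⁻¹ : Ωˣ), hmemv' a⟩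
    (hint _ (hv a).1) (hint _ (hv a).2) (by
      apply Subtype.ext
      show (v a : Ω) * (((v a)⁻¹ : Ωˣ) : Ω) = 1
      rw [← Units.val_mul, mul_inv_cancel, Units.val_one])
  have hV : ∀ a, ((V a : L) : Ω) = v a := fun a ↦ rfl
  have hVlog : ∀ a, logU Λ (ι.comp (algebraMap L Ω)) (V a) =
      Λ.toFun (Units.map (ι : Ω →* k) (v a)) := by
    intro a
    unfold logU
    congr 1
  -- denominators
  have halg : Algebra.IsAlgebraic ℤ L :=
    (IsFractionRing.comap_isAlgebraic_iff (A := ℤ) (K := ℚ) (C := L)).2 inferInstance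
  obtain ⟨d, hd0, hd⟩ := Algebra.IsAlgebraic.exists_integral_multiples ℤ
    (Finset.univ.image fun a : Fin g × I ↦ (⟨X a.1 a.2, hmemX a.1 a.2⟩ : L))
  obtain ⟨N3, hN3, hNu⟩ := exists_pow_norm_le p (ι.comp (algebraMap L Ω))
  have hdn : 0 < d.natAbs := Int.natAbs_pos.2 hd0
  have hDint : ∀ q i, IsIntegral ℤ (((d.natAbs : ℕ) : L) * (⟨X q i, hmemX q i⟩ : L)) := by
    intro q i
    have h1 := hd (⟨X q i, hmemX q i⟩ : L) (Finset.mem_image.2 ⟨(q, i), Finset.mem_univ _, rfl⟩)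
    rw [zsmul_eq_mul] at h1
    rcases Int.natAbs_eq d with h | h
    · have h2 : ((d.natAbs : ℕ) : L) = (d : L) := by
        rw [← Int.cast_natCast (R := L), ← h]
      rw [h2]
      exact h1
    · have h2 : ((d.natAbs : ℕ) : L) = -(d : L) := by
        rw [← Int.cast_natCast (R := L), ← Int.cast_neg]
        congr 1
        omega
      rw [h2, neg_mul]
      exact h1.neg
  have hnint : ∀ q i, IsIntegral ℤ (((n1 * (N3 * d.natAbs) : ℕ) : L) *
      (⟨X q i, hmemX q i⟩ : L)) := by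
    intro q i
    have h1 : IsIntegral ℤ ((n1 * N3 : ℕ) : L) := by
      have h := isIntegral_algebraMap (R := ℤ) (A := L) (x := ((n1 * N3 : ℕ) : ℤ))
      rwa [eq_intCast, Int.cast_natCast] at h
    have h2 := h1.mul (hDint q i)
    have h3 : ((n1 * (N3 * d.natAbs) : ℕ) : L) * (⟨X q i, hmemX q i⟩ : L) =
        ((n1 * N3 : ℕ) : L) * (((d.natAbs : ℕ) : L) * (⟨X q i, hmemX q i⟩ : L)) := by
      push_cast
      ring
    rw [h3]
    exact h2
  refine ⟨n1 * (N3 * d.natAbs), L, hNF, fun q i ↦ ⟨_, hnint q i⟩,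
    fun q j ↦ V (q, j) ^ (N3 * d.natAbs), Nat.mul_pos hn1 (Nat.mul_pos hN3 hdn), ?_, ?_, ?_⟩
  · intro q i
    show (((((n1 * (N3 * d.natAbs) : ℕ) : L) * (⟨X q i, hmemX q i⟩ : L)) : L) : Ω) = _
    push_cast
    rfl
  · intro q j
    have h1 := hNu (V (q, j) ^ d.natAbs)
    rw [← pow_mul, mul_comm d.natAbs N3] at h1
    exact h1
  · intro q j
    rw [logU_pow, hVlog, ← hn1v (q, j)]
    push_cast
    ring

end Pool.Agent.Helper40.SLR
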